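import Mathlib

/-! The stochastic hyperbolic infinite quadrangulation (SHIQ): the ternary tree, its corners, the
clockwise contour, the labels, the Schaeffer edges, and the anchored expansion constant. -/

set_option autoImplicit false

namespace Q295.Shiq

open Filter Topology

/-- Vertices of the planar ternary tree: `[]` is the root and `i :: v` is the `i`-th child of `v`
(the children are listed in the clockwise contour order). -/
abbrev Vtx := List (Fin 3)

/-- Corners of the planar ternary tree: `first v` is the corner of `v` just before its child `0`,
`mid v k` is the corner of `v` between its children `k` and `k + 1`, and `last i v` is the corner of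
the non-root vertex `i :: v` just after its child `2`. (A non-root vertex has four corners, the
root, at which the corners before child `0` and after child `2` coincide, has three.) -/
inductive Corner
  | first (v : Vtx)
  | mid (v : Vtx) (k : Fin 2)
  | last (i : Fin 3) (v : Vtx)

/-- the vertex of a corner -/
def Corner.vertex : Corner → Vtx
  | .first v => v
  | .mid v _ => v
  | .last i v => i :: v

/-- the next corner of the contour of the tree -/
def Corner.next : Corner → Corner
  | .first v => .first (0 :: v)
  | .mid v 0 => .first (1 :: v)
  | .mid v 1 => .first (2 :: v)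
  | .last 0 v => .mid v 0
  | .last 1 v => .mid v 1
  | .last 2 [] => .first []
  | .last 2 (i :: v) => .last i v

/-- The label of a vertex: the sum of `d_e` over the edges of the geodesic from the root. The edge
between `v ≠ []` and its parent is indexed by `v`, and `d v : Fin 3` encodes `d_e = d v - 1`. -/
def label (d : Vtx → Fin 3) : Vtx → ℤ
  | [] => 0
  | i :: v => (((d (i :: v) : ℕ) : ℤ) - 1) + label d v

/-- the label of (the vertex of) a corner -/
def lab (d : Vtx → Fin 3) (c : Corner) : ℤ := label d c.vertex

/-- there is a corner after `c` with label `lab c - 1` -/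
def HasSucc (d : Vtx → Fin 3) (c : Corner) : Prop := ∃ n : ℕ, lab d (Corner.next^[n + 1] c) = lab d c - 1

open Classical in
/-- the first corner after `c` in the contour order whose label is `lab c - 1` -/
noncomputable def succ (d : Vtx → Fin 3) (c : Corner) : Corner :=
  if h : HasSucc d c then Corner.next^[Nat.find h + 1] c else c

/-- The SHIQ: its vertices are those of the tree, and it has one edge for every corner `c`, between
`c.vertex` and `(succ d c).vertex`. This is the simple graph of the adjacency relation; multiple
edges are counted in `deg`, `bdry`. -/
noncomputable def shiq (d : Vtx → Fin 3) : SimpleGraph Vtx :=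
  SimpleGraph.fromRel (fun u v => ∃ c : Corner, c.vertex = u ∧ (succ d c).vertex = v)

/-- the degree of `v` in the SHIQ (edges counted with multiplicity) -/
noncomputable def deg (d : Vtx → Fin 3) (v : Vtx) : ℕ∞ :=
  {c : Corner | c.vertex = v}.encard + {c : Corner | (succ d c).vertex = v}.encard

/-- `|S|_deg` -/
noncomputable def vol (d : Vtx → Fin 3) (S : Finset Vtx) : ℕ∞ := ∑ v ∈ S, deg d v

/-- the edges (indexed by corners) with exactly one endpoint in `S` -/
def bdry (d : Vtx → Fin 3) (S : Finset Vtx) : Set Corner :=
  {c | (c.vertex ∈ S ∧ (succ d c).vertex ∉ S) ∨ (c.vertex ∉ S ∧ (succ d c).vertex ∈ S)}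

/-- the infimum of `|∂_E S| / |S|_deg` over the finite connected sets `S` containing `o` with
`n ≤ |S|_deg < ∞` -/
noncomputable def ratioInf (d : Vtx → Fin 3) (o : Vtx) (n : ℕ) : ENNReal :=
  ⨅ (S : Finset Vtx) (_ : o ∈ S) (_ : ((shiq d).induce (S : Set Vtx)).Connected)
    (_ : (n : ℕ∞) ≤ vol d S) (_ : vol d S < ⊤),
    ((bdry d S).encard : ENNReal) / (vol d S : ENNReal)

/-- the anchored expansion constant with base vertex `o` (the supremum, that is the limit, of
the nondecreasing sequence `ratioInf d o n`) -/
noncomputable def anchored (d : Vtx → Fin 3) (o : Vtx) : ENNReal := ⨆ n : ℕ, ratioInf d o n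

end Q295.Shiq
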