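import Pool.Agent.Q295.Shiq.Defs

/-! Deterministic facts. -/

set_option autoImplicit false

namespace Q295.Shiq

open Filter Topology

instance : Nonempty Corner := ⟨.first []⟩

/-- discrete intermediate value -/
theorem ivt (f : ℕ → ℤ) (hf : ∀ n, |f (n + 1) - f n| ≤ 1) (t : ℤ) :
    ∀ N, ((f 0 ≤ t ∧ t ≤ f N) ∨ (t ≤ f 0 ∧ f N ≤ t)) → ∃ n ≤ N, f n = t := by
  intro N
  induction N with
  | zero =>
    intro h
    refine ⟨0, le_rfl, ?_⟩
    omega
  | succ N ih =>
    intro h
    have h1 := hf N
    rw [abs_le] at h1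
    by_cases h2 : f (N + 1) = t
    · exact ⟨N + 1, le_rfl, h2⟩
    · obtain ⟨n, hn, hn2⟩ := ih (by
        rcases h with h | h
        · left; omega
        · right; omega)
      exact ⟨n, by omega, hn2⟩

theorem lab_next (d : Vtx → Fin 3) (c : Corner) : |lab d c.next - lab d c| ≤ 1 := by
  have key : ∀ (i : Fin 3) (v : Vtx), |label d (i :: v) - label d v| ≤ 1 := by
    intro i v
    simp only [label]
    have := (d (i :: v)).isLt
    rw [abs_le]
    omega
  unfold lab
  rcases c with v | ⟨v, k⟩ | ⟨i, v⟩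
  · exact key _ _
  · fin_cases k
    · exact key _ _
    · exact key _ _
  · fin_cases i
    · show |label d v - label d (_ :: v)| ≤ 1
      rw [abs_sub_comm]; exact key _ _
    · show |label d v - label d (_ :: v)| ≤ 1
      rw [abs_sub_comm]; exact key _ _
    · rcases v with _ | ⟨j, v⟩
      · show |label d [] - label d (_ :: [])| ≤ 1
        rw [abs_sub_comm]; exact key _ _
      · show |label d (j :: v) - label d (_ :: j :: v)| ≤ 1
        rw [abs_sub_comm]; exact key _ _

theorem lab_iter (d : Vtx → Fin 3) (c : Corner) (n : ℕ) :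
    |lab d (Corner.next^[n + 1] c) - lab d (Corner.next^[n] c)| ≤ 1 := by
  rw [Function.iterate_succ_apply']
  exact lab_next d _

def Corner.prev : Corner → Corner
  | .first [] => .last 2 []
  | .first (0 :: v) => .first v
  | .first (1 :: v) => .mid v 0
  | .first (2 :: v) => .mid v 1
  | .mid v 0 => .last 0 v
  | .mid v 1 => .last 1 v
  | .last i v => .last 2 (i :: v)

theorem next_prev (c : Corner) : c.prev.next = c := by
  rcases c with v | ⟨v, k⟩ | ⟨i, v⟩
  · rcases v with _ | ⟨i, v⟩
    · rfl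
    · fin_cases i <;> rfl
  · fin_cases k <;> rfl
  · rfl

theorem prev_next (c : Corner) : c.next.prev = c := by
  rcases c with v | ⟨v, k⟩ | ⟨i, v⟩
  · rfl
  · fin_cases k <;> rfl
  · fin_cases i
    · rfl
    · rfl
    · rcases v with _ | ⟨j, v⟩ <;> rfl

theorem prev_iter_next (c : Corner) (n : ℕ) : Corner.prev^[n] (Corner.next^[n] c) = c := by
  induction n generalizing c with
  | zero => rfl
  | succ n ih =>
    rw [Function.iterate_succ_apply' Corner.next, Function.iterate_succ_apply, prev_next, ih]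

theorem next_iter_prev (c : Corner) (n : ℕ) : Corner.next^[n] (Corner.prev^[n] c) = c := by
  induction n generalizing c with
  | zero => rfl
  | succ n ih =>
    rw [Function.iterate_succ_apply' Corner.prev, Function.iterate_succ_apply, next_prev, ih]

theorem lab_prev_iter (d : Vtx → Fin 3) (c : Corner) (n : ℕ) :
    |lab d (Corner.prev^[n + 1] c) - lab d (Corner.prev^[n] c)| ≤ 1 := by
  rw [Function.iterate_succ_apply', abs_sub_comm]
  have := lab_next d (Corner.prev (Corner.prev^[n] c))
  rwa [next_prev] at this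

/-- the ray from `v` always taking child `a` -/
def ray (a : Fin 3) (v : Vtx) (n : ℕ) : Vtx := List.replicate n a ++ v

theorem ray_succ (a : Fin 3) (v : Vtx) (n : ℕ) : ray a v (n + 1) = a :: ray a v n := by
  simp [ray, List.replicate_succ]

theorem label_ray (d : Vtx → Fin 3) (a : Fin 3) (v : Vtx) (n : ℕ) :
    label d (ray a v n) = label d v + ∑ i ∈ Finset.range n, (((d (ray a v (i + 1)) : ℕ) : ℤ) - 1) := by
  induction n with
  | zero => simp [ray]
  | succ n ih =>
    rw [Finset.sum_range_succ, ← add_assoc, ← ih]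
    conv_lhs => rw [ray_succ]
    simp only [label]
    rw [← ray_succ]
    ring

theorem next_first (v : Vtx) (n : ℕ) : Corner.next^[n] (.first v) = .first (ray 0 v n) := by
  induction n with
  | zero => simp [ray]
  | succ n ih =>
    rw [Function.iterate_succ_apply', ih, ray_succ]
    rfl

theorem prev_last (i : Fin 3) (v : Vtx) (n : ℕ) :
    (Corner.prev^[n] (.last i v)).vertex = ray 2 (i :: v) n ∧
      ∃ j w, Corner.prev^[n] (.last i v) = .last j w := by
  induction n with
  | zero => exact ⟨by simp [ray, Corner.vertex], i, v, rfl⟩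
  | succ n ih =>
    obtain ⟨h1, j, w, h2⟩ := ih
    rw [Function.iterate_succ_apply', ray_succ, ← h1, h2]
    exact ⟨rfl, 2, j :: w, rfl⟩

theorem exists_first (c : Corner) : ∃ m v, Corner.next^[m] c = .first v := by
  rcases c with v | ⟨v, k⟩ | ⟨i, v⟩
  · exact ⟨0, v, rfl⟩
  · fin_cases k
    · exact ⟨1, _, rfl⟩
    · exact ⟨1, _, rfl⟩
  · induction v generalizing i with
    | nil =>
      fin_cases i
      · exact ⟨2, _, rfl⟩
      · exact ⟨2, _, rfl⟩
      · exact ⟨1, _, rfl⟩
    | cons j v ih =>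
      fin_cases i
      · exact ⟨2, _, rfl⟩
      · exact ⟨2, _, rfl⟩
      · obtain ⟨m, w, h⟩ := ih j
        exact ⟨m + 1, w, by rw [Function.iterate_succ_apply]; exact h⟩

theorem exists_last (c : Corner) : ∃ m i v, Corner.prev^[m] c = .last i v := by
  rcases c with v | ⟨v, k⟩ | ⟨i, v⟩
  · induction v with
    | nil => exact ⟨1, _, _, rfl⟩
    | cons j v ih =>
      fin_cases j
      · obtain ⟨m, i, w, h⟩ := ih
        exact ⟨m + 1, i, w, by rw [Function.iterate_succ_apply]; exact h⟩
      · exact ⟨2, _, _, rfl⟩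
      · exact ⟨2, _, _, rfl⟩
  · fin_cases k
    · exact ⟨1, _, _, rfl⟩
    · exact ⟨1, _, _, rfl⟩
  · exact ⟨0, i, v, rfl⟩

/-- the good event: the labels are unbounded above and below along all the rays -/
def Good (d : Vtx → Fin 3) : Prop :=
  ∀ (a : Fin 3) (v : Vtx) (t : ℤ),
    (∃ n, t < ∑ i ∈ Finset.range n, (((d (ray a v (i + 1)) : ℕ) : ℤ) - 1)) ∧
      (∃ n, ∑ i ∈ Finset.range n, (((d (ray a v (i + 1)) : ℕ) : ℤ) - 1) < t)

theorem fwd_unbdd {d : Vtx → Fin 3} (h : Good d) (c : Corner) (t : ℤ) :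
    (∃ n, t < lab d (Corner.next^[n] c)) ∧ (∃ n, lab d (Corner.next^[n] c) < t) := by
  obtain ⟨m, v, hm⟩ := exists_first c
  obtain ⟨⟨n, hn⟩, ⟨n', hn'⟩⟩ := h 0 v (t - label d v)
  have key : ∀ k, lab d (Corner.next^[k + m] c) = label d v +
      ∑ i ∈ Finset.range k, (((d (ray 0 v (i + 1)) : ℕ) : ℤ) - 1) := by
    intro k
    rw [Function.iterate_add_apply, hm, next_first, ← label_ray]
    rfl
  exact ⟨⟨n + m, by rw [key]; linarith⟩, ⟨n' + m, by rw [key]; linarith⟩⟩

theorem bwd_unbdd {d : Vtx → Fin 3} (h : Good d) (c : Corner) (t : ℤ) :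
    (∃ n, t < lab d (Corner.prev^[n] c)) ∧ (∃ n, lab d (Corner.prev^[n] c) < t) := by
  obtain ⟨m, i, v, hm⟩ := exists_last c
  obtain ⟨⟨n, hn⟩, ⟨n', hn'⟩⟩ := h 2 (i :: v) (t - label d (i :: v))
  have key : ∀ k, lab d (Corner.prev^[k + m] c) = label d (i :: v) +
      ∑ j ∈ Finset.range k, (((d (ray 2 (i :: v) (j + 1)) : ℕ) : ℤ) - 1) := by
    intro k
    rw [Function.iterate_add_apply, hm, ← label_ray]
    unfold lab
    rw [(prev_last i v k).1]
  exact ⟨⟨n + m, by rw [key]; linarith⟩, ⟨n' + m, by rw [key]; linarith⟩⟩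

theorem hasSucc {d : Vtx → Fin 3} (h : Good d) (c : Corner) : HasSucc d c := by
  obtain ⟨N, hN⟩ := (fwd_unbdd h c (lab d c - 1)).2
  obtain ⟨n, _, hn⟩ := ivt (fun n => lab d (Corner.next^[n] c)) (lab_iter d c) (lab d c - 1) N
    (Or.inr ⟨by simp, hN.le⟩)
  rcases n with _ | n
  · have hn' : lab d c = lab d c - 1 := hn
    omega
  · exact ⟨n, hn⟩

theorem succ_spec {d : Vtx → Fin 3} {c : Corner} (h : HasSucc d c) :
    ∃ n, succ d c = Corner.next^[n + 1] c ∧ lab d (Corner.next^[n + 1] c) = lab d c - 1 ∧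
      ∀ m < n, lab d (Corner.next^[m + 1] c) ≠ lab d c - 1 := by
  classical
  refine ⟨Nat.find h, ?_, Nat.find_spec h, fun m hm => Nat.find_min h hm⟩
  unfold succ
  rw [dif_pos h]

theorem lab_succ {d : Vtx → Fin 3} {c : Corner} (h : HasSucc d c) :
    lab d (succ d c) = lab d c - 1 := by
  obtain ⟨n, h1, h2, _⟩ := succ_spec h
  rw [h1, h2]

/-! ### owners -/

def ownF : Vtx → Option (Vtx × Fin 2)
  | [] => none
  | 0 :: v => ownF v
  | 1 :: v => some (v, 0)
  | 2 :: v => some (v, 1)

def own : Corner → Option (Vtx × Fin 2)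
  | .first v => ownF v
  | .mid v k => some (v, k)
  | .last _ _ => none

theorem own_next {c : Corner} {x : Vtx × Fin 2} (h : own c = some x) : own c.next = some x := by
  rcases c with v | ⟨v, k⟩ | ⟨i, v⟩
  · exact h
  · rw [← h]; fin_cases k <;> rfl
  · simp [own] at h

theorem own_iter {c : Corner} {x : Vtx × Fin 2} (h : own c = some x) (n : ℕ) :
    own (Corner.next^[n] c) = some x := by
  induction n with
  | zero => exact h
  | succ n ih => rw [Function.iterate_succ_apply']; exact own_next ih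

theorem own_succ {d : Vtx → Fin 3} {c : Corner} {x : Vtx × Fin 2} (hs : HasSucc d c)
    (h : own c = some x) : own (succ d c) = some x := by
  obtain ⟨n, h1, _, _⟩ := succ_spec hs
  rw [h1]
  exact own_iter h _

theorem lab_succ_iter {d : Vtx → Fin 3} (hd : Good d) (c : Corner) (n : ℕ) :
    lab d ((succ d)^[n] c) = lab d c - n := by
  induction n with
  | zero => simp
  | succ n ih =>
    rw [Function.iterate_succ_apply', lab_succ (hasSucc hd _), ih]
    push_cast
    ring

/-- the successor path from a corner at a finite set leaves it through an outgoing edge -/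
theorem exists_exit {d : Vtx → Fin 3} (hd : Good d) (S : Finset Vtx) (c : Corner)
    (hc : c.vertex ∈ S) : ∃ n, ((succ d)^[n] c).vertex ∈ S ∧ (succ d ((succ d)^[n] c)).vertex ∉ S := by
  by_contra hcon
  push Not at hcon
  have hall : ∀ n, ((succ d)^[n] c).vertex ∈ S := by
    intro n
    induction n with
    | zero => exact hc
    | succ n ih => rw [Function.iterate_succ_apply']; exact hcon n ih
  obtain ⟨b, hb⟩ := (S.finite_toSet.image (label d)).bddBelow
  have h1 := hb ⟨_, hall ((lab d c - b + 1).toNat), rfl⟩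
  have h2 := lab_succ_iter hd c ((lab d c - b + 1).toNat)
  have h3 := Int.self_le_toNat (lab d c - b + 1)
  have h4 : label d ((succ d)^[(lab d c - b + 1).toNat] c).vertex =
    lab d ((succ d)^[(lab d c - b + 1).toNat] c) := rfl
  rw [h4, h2] at h1
  omega

/-- outgoing edges -/
def outE (d : Vtx → Fin 3) (S : Finset Vtx) : Set Corner :=
  {c | c.vertex ∈ S ∧ (succ d c).vertex ∉ S}
def innE (d : Vtx → Fin 3) (S : Finset Vtx) : Set Corner :=
  {c | c.vertex ∈ S ∧ (succ d c).vertex ∈ S}
def incE (d : Vtx → Fin 3) (S : Finset Vtx) : Set Corner :=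
  {c | c.vertex ∉ S ∧ (succ d c).vertex ∈ S}

theorem two_le_out {d : Vtx → Fin 3} (hd : Good d) (S : Finset Vtx) :
    (2 * S.card : ℕ) ≤ (outE d S).encard := by
  classical
  have h1 : ∀ x : Vtx × Fin 2, x ∈ S ×ˢ (Finset.univ : Finset (Fin 2)) →
      ∃ c, c ∈ outE d S ∧ own c = some x := by
    rintro ⟨v, k⟩ hx
    simp only [Finset.mem_product, Finset.mem_univ, and_true] at hx
    obtain ⟨n, h1, h2⟩ := exists_exit hd S (.mid v k) hx
    refine ⟨_, ⟨h1, h2⟩, ?_⟩
    clear h1 h2
    induction n with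
    | zero => rfl
    | succ n ih =>
      rw [Function.iterate_succ_apply']
      exact own_succ (hasSucc hd _) ih
  choose! f hf1 hf2 using h1
  have h2 : Set.InjOn f ((S ×ˢ (Finset.univ : Finset (Fin 2)) : Finset (Vtx × Fin 2)) :
      Set (Vtx × Fin 2)) := by
    intro x hx y hy hxy
    have e1 := hf2 x hx
    have e2 := hf2 y hy
    rw [hxy, e2] at e1
    exact (Option.some.inj e1).symm
  have h3 : (f '' ((S ×ˢ (Finset.univ : Finset (Fin 2)) : Finset (Vtx × Fin 2)) : Set (Vtx × Fin 2)))
      ⊆ outE d S := by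
    rintro _ ⟨x, hx, rfl⟩
    exact hf1 x hx
  calc ((2 * S.card : ℕ) : ℕ∞) = (((S ×ˢ (Finset.univ : Finset (Fin 2)) :
        Finset (Vtx × Fin 2)) : Set (Vtx × Fin 2))).encard := by
        rw [Set.encard_coe_eq_coe_finsetCard, Finset.card_product]
        simp [mul_comm]
    _ = _ := (h2.encard_image).symm
    _ ≤ _ := Set.encard_le_encard h3

theorem corners_at (v : Vtx) : {c : Corner | c.vertex = v} ⊆
    {.first v, .mid v 0, .mid v 1, .last (v.headD 0) v.tail} := by
  intro c hc
  rcases c with w | ⟨w, k⟩ | ⟨i, w⟩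
  · simp only [Corner.vertex, Set.mem_ofPred_eq] at hc
    subst hc; simp
  · simp only [Corner.vertex, Set.mem_ofPred_eq] at hc
    subst hc
    fin_cases k <;> simp
  · simp only [Corner.vertex, Set.mem_ofPred_eq] at hc
    subst hc; simp

theorem corners_card (v : Vtx) : {c : Corner | c.vertex = v}.encard ≤ 4 := by
  refine (Set.encard_le_encard (corners_at v)).trans ?_
  refine (Set.encard_insert_le _ _).trans ?_
  refine (add_le_add_left (Set.encard_insert_le _ _) _).trans ?_
  refine (add_le_add_left (add_le_add_left (Set.encard_insert_le _ _) _) _).trans ?_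
  rw [Set.encard_singleton]
  norm_num

theorem sum_encard (g : Corner → Vtx) (S : Finset Vtx) :
    ∑ v ∈ S, {c : Corner | g c = v}.encard = {c : Corner | g c ∈ S}.encard := by
  classical
  induction S using Finset.induction_on with
  | empty => simp
  | insert a S ha ih =>
    rw [Finset.sum_insert ha, ih]
    have h1 : {c : Corner | g c ∈ insert a S} = {c | g c = a} ∪ {c | g c ∈ S} := by
      ext c; simp
    rw [h1, Set.encard_union_eq]
    rw [Set.disjoint_left]
    rintro c hc1 hc2
    simp only [Set.mem_ofPred_eq] at hc1 hc2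
    exact ha (hc1 ▸ hc2)

theorem vol_eq (d : Vtx → Fin 3) (S : Finset Vtx) : vol d S =
    ((outE d S).encard + (innE d S).encard) + ((innE d S).encard + (incE d S).encard) := by
  unfold vol deg
  rw [Finset.sum_add_distrib, sum_encard, sum_encard]
  congr 1
  · rw [← Set.encard_union_eq]
    · congr 1
      ext c
      simp only [outE, innE, Set.mem_union, Set.mem_ofPred_eq]
      tauto
    · rw [Set.disjoint_left]
      rintro c ⟨_, h1⟩ ⟨_, h2⟩
      exact h1 h2
  · rw [← Set.encard_union_eq]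
    · congr 1
      ext c
      simp only [incE, innE, Set.mem_union, Set.mem_ofPred_eq]
      tauto
    · rw [Set.disjoint_left]
      rintro c ⟨h1, _⟩ ⟨h2, _⟩
      exact h2 h1

theorem bdry_eq (d : Vtx → Fin 3) (S : Finset Vtx) :
    (bdry d S).encard = (outE d S).encard + (incE d S).encard := by
  rw [← Set.encard_union_eq]
  · rfl
  · rw [Set.disjoint_left]
    rintro c ⟨h1, _⟩ ⟨h2, _⟩
    exact h2 h1

theorem inn_le_out {d : Vtx → Fin 3} (hd : Good d) (S : Finset Vtx) :
    (innE d S).encard ≤ (outE d S).encard := by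
  have h1 := two_le_out hd S
  have h2 : (outE d S).encard + (innE d S).encard ≤ (4 * S.card : ℕ) := by
    have e1 : (outE d S).encard + (innE d S).encard = {c : Corner | c.vertex ∈ S}.encard := by
      rw [← Set.encard_union_eq]
      · congr 1
        ext c
        simp only [outE, innE, Set.mem_union, Set.mem_ofPred_eq]
        tauto
      · rw [Set.disjoint_left]
        rintro c ⟨_, h1⟩ ⟨_, h2⟩
        exact h1 h2
    rw [e1, ← sum_encard]
    refine (Finset.sum_le_card_nsmul _ _ 4 (fun v _ => corners_card v)).trans ?_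
    simp [mul_comm]
  have hf : (outE d S).encard ≠ ⊤ := by
    intro h
    rw [h, top_add] at h2
    exact ENat.natCast_ne_top _ (top_le_iff.1 h2)
  have hf2 : (innE d S).encard ≠ ⊤ := by
    intro h
    rw [h, add_top] at h2
    exact ENat.natCast_ne_top _ (top_le_iff.1 h2)
  obtain ⟨a, ha⟩ := ENat.ne_top_iff_exists.1 hf
  obtain ⟨b, hb⟩ := ENat.ne_top_iff_exists.1 hf2
  rw [← ha] at h1 h2 ⊢
  rw [← hb] at h2 ⊢
  norm_cast at h1 h2 ⊢
  omega

theorem vol_le {d : Vtx → Fin 3} (hd : Good d) (S : Finset Vtx) :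
    vol d S ≤ 3 * (bdry d S).encard := by
  rw [vol_eq, bdry_eq]
  have h := inn_le_out hd S
  generalize (outE d S).encard = a at *
  generalize (innE d S).encard = b at *
  generalize (incE d S).encard = c at *
  calc (a + b) + (b + c) ≤ (a + a) + (a + c) := by gcongr
    _ ≤ (a + a) + (a + 3 * c) := by
        gcongr
        calc c = 1 * c := (one_mul c).symm
          _ ≤ 3 * c := by gcongr; norm_num
    _ = 3 * (a + c) := by ring

/-! ### local finiteness -/

theorem pred_finite {d : Vtx → Fin 3} (hd : Good d) (c' : Corner) :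
    {c : Corner | succ d c = c'}.Finite := by
  have hm : ∃ m, 0 < m ∧ lab d (Corner.prev^[m] c') = lab d c' := by
    let f : ℕ → ℤ := fun n => lab d (Corner.prev^[n + 1] c')
    have hf : ∀ n, |f (n + 1) - f n| ≤ 1 := fun n => lab_prev_iter d c' (n + 1)
    obtain ⟨⟨n, hn⟩, ⟨n', hn'⟩⟩ := bwd_unbdd hd c' (lab d c')
    have hn0 : n ≠ 0 := by rintro rfl; simp at hn
    have hn0' : n' ≠ 0 := by rintro rfl; simp at hn'
    obtain ⟨n, rfl⟩ := Nat.exists_eq_succ_of_ne_zero hn0
    obtain ⟨n', rfl⟩ := Nat.exists_eq_succ_of_ne_zero hn0'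
    rcases le_total (f 0) (lab d c') with h0 | h0
    · obtain ⟨k, _, hk⟩ := ivt f hf (lab d c') n (Or.inl ⟨h0, hn.le⟩)
      exact ⟨k + 1, by omega, hk⟩
    · obtain ⟨k, _, hk⟩ := ivt f hf (lab d c') n' (Or.inr ⟨h0, hn'.le⟩)
      exact ⟨k + 1, by omega, hk⟩
  obtain ⟨m, hm0, hm⟩ := hm
  refine ((Set.finite_Iic m).image (fun j => Corner.prev^[j] c')).subset ?_
  rintro c hc
  simp only [Set.mem_ofPred_eq] at hc
  obtain ⟨n, h1, h2, h3⟩ := succ_spec (hasSucc hd c)
  rw [hc] at h1
  have hcp : c = Corner.prev^[n + 1] c' := by rw [h1, prev_iter_next]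
  refine ⟨n + 1, ?_, hcp.symm⟩
  simp only [Set.mem_Iic]
  by_contra hlt
  push Not at hlt
  have hx : Corner.prev^[m] c' = Corner.next^[n + 1 - m] c := by
    rw [h1]
    have : n + 1 = m + (n + 1 - m) := by omega
    conv_lhs => rw [this, Function.iterate_add_apply, prev_iter_next]
  rw [hx] at hm
  have := h3 (n - m) (by omega)
  apply this
  rw [show n - m + 1 = n + 1 - m by omega, hm, h1, h2]

theorem deg_lt_top {d : Vtx → Fin 3} (hd : Good d) (v : Vtx) : deg d v < ⊤ := by
  unfold deg
  have h1 : {c : Corner | c.vertex = v}.encard < ⊤ := (corners_card v).trans_lt (by decide)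
  have h2 : {c : Corner | (succ d c).vertex = v}.encard < ⊤ := by
    rw [Set.encard_lt_top_iff]
    have hf : {c : Corner | c.vertex = v}.Finite := Set.encard_lt_top_iff.1 h1
    refine (hf.biUnion (fun c' _ => pred_finite hd c')).subset ?_
    intro c hc
    simp only [Set.mem_iUnion]
    exact ⟨succ d c, hc, rfl⟩
  exact WithTop.add_lt_top.2 ⟨h1, h2⟩

/-! ### connectedness -/

def IsHit (d : Vtx → Fin 3) (c : Corner) (t : ℤ) (n : ℕ) : Prop :=
  lab d (Corner.next^[n] c) = t ∧ ∀ m < n, lab d (Corner.next^[m] c) ≠ t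

theorem exists_hit {d : Vtx → Fin 3} (hd : Good d) (c : Corner) (t : ℤ) : ∃ n, IsHit d c t n := by
  classical
  have h : ∃ n, lab d (Corner.next^[n] c) = t := by
    obtain ⟨⟨n, hn⟩, ⟨n', hn'⟩⟩ := fwd_unbdd hd c t
    rcases le_total (lab d c) t with h0 | h0
    · obtain ⟨k, _, hk⟩ := ivt (fun n => lab d (Corner.next^[n] c)) (lab_iter d c) t n
        (Or.inl ⟨h0, hn.le⟩)
      exact ⟨k, hk⟩
    · obtain ⟨k, _, hk⟩ := ivt (fun n => lab d (Corner.next^[n] c)) (lab_iter d c) t n'
        (Or.inr ⟨h0, hn'.le⟩)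
      exact ⟨k, hk⟩
  exact ⟨Nat.find h, Nat.find_spec h, fun m hm => Nat.find_min h hm⟩

theorem hit_next {d : Vtx → Fin 3} {c : Corner} {t : ℤ} {n : ℕ} (h : IsHit d c t n)
    (ht : t < lab d c) : ∃ m, n = m + 1 ∧ IsHit d c.next t m := by
  rcases n with _ | m
  · exact absurd h.1 (by simp; omega)
  · exact ⟨m, rfl, h.1, fun k hk => h.2 (k + 1) (by omega)⟩

theorem hit_succ {d : Vtx → Fin 3} (hd : Good d) {c : Corner} {t : ℤ} {n : ℕ} (h : IsHit d c t n)
    (ht : t < lab d c) : ∃ m, IsHit d (succ d c) t m ∧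
      Corner.next^[n] c = Corner.next^[m] (succ d c) := by
  obtain ⟨k, h1, h2, h3⟩ := succ_spec (hasSucc hd c)
  have hk : k + 1 ≤ n := by
    obtain ⟨j, hj1, hj2⟩ := ivt (fun n => lab d (Corner.next^[n] c)) (lab_iter d c) (lab d c - 1) n
      (Or.inr ⟨by simp, by simp only [h.1]; omega⟩)
    rcases j with _ | j
    · have hj2' : lab d c = lab d c - 1 := hj2
      omega
    · by_contra hlt
      exact h3 j (by omega) hj2
  obtain ⟨m, rfl⟩ := Nat.exists_eq_add_of_le hk
  rw [add_comm (k + 1) m] at h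
  have hx : Corner.next^[m + (k + 1)] c = Corner.next^[m] (succ d c) := by
    rw [Function.iterate_add_apply, h1]
  refine ⟨m, ⟨?_, fun j hj => ?_⟩, ?_⟩
  · rw [← hx]; exact h.1
  · have := h.2 (j + (k + 1)) (by omega)
    rwa [Function.iterate_add_apply, ← h1] at this
  · rw [add_comm (k + 1) m]; exact hx

theorem adj_succ {d : Vtx → Fin 3} (hd : Good d) (c : Corner) :
    (shiq d).Adj c.vertex (succ d c).vertex := by
  unfold shiq
  rw [SimpleGraph.fromRel_adj]
  refine ⟨?_, Or.inl ⟨c, rfl, rfl⟩⟩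
  intro h
  have := lab_succ (hasSucc hd c)
  unfold lab at this
  rw [← h] at this
  omega

theorem reach_hit {d : Vtx → Fin 3} (hd : Good d) (k : ℕ) : ∀ (c : Corner) (n : ℕ),
    IsHit d c (lab d c - k) n → (shiq d).Reachable c.vertex (Corner.next^[n] c).vertex := by
  induction k with
  | zero =>
    intro c n h
    have : n = 0 := by
      by_contra hn
      exact h.2 0 (by omega) (by simp)
    subst this
    exact SimpleGraph.Reachable.refl _
  | succ k ih =>
    intro c n h
    obtain ⟨m, h1, h2⟩ := hit_succ hd h (by push_cast; omega)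
    rw [h2]
    refine (adj_succ hd c).reachable.trans (ih _ _ ?_)
    have : lab d (succ d c) - (k : ℤ) = lab d c - ((k + 1 : ℕ) : ℤ) := by
      rw [lab_succ (hasSucc hd c)]; push_cast; ring
    rw [this]
    exact h1

theorem reach_next {d : Vtx → Fin 3} (hd : Good d) (c : Corner) :
    (shiq d).Reachable c.vertex c.next.vertex := by
  set t := min (lab d c) (lab d c.next) - 1 with ht
  have h1 : t < lab d c := by omega
  have h2 : t < lab d c.next := by omega
  obtain ⟨n, hn⟩ := exists_hit hd c t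
  obtain ⟨m, rfl, hm⟩ := hit_next hn h1
  have e1 : t = lab d c - ((lab d c - t).toNat : ℤ) := by
    rw [Int.toNat_of_nonneg (by omega)]; ring
  have e2 : t = lab d c.next - ((lab d c.next - t).toNat : ℤ) := by
    rw [Int.toNat_of_nonneg (by omega)]; ring
  have r1 := reach_hit hd _ c (m + 1) (by rw [← e1]; exact hn)
  have r2 := reach_hit hd _ c.next m (by rw [← e2]; exact hm)
  exact r1.trans r2.symm

theorem shiq_connected {d : Vtx → Fin 3} (hd : Good d) : (shiq d).Connected := by
  have key : ∀ v : Vtx, (shiq d).Reachable [] v := by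
    intro v
    induction v with
    | nil => exact SimpleGraph.Reachable.refl _
    | cons i v ih =>
      refine ih.trans ?_
      fin_cases i
      · exact reach_next hd (.first v)
      · exact reach_next hd (.mid v 0)
      · exact reach_next hd (.mid v 1)
  rw [SimpleGraph.connected_iff_exists_forall_reachable]
  exact ⟨[], key⟩

/-! ### the constant -/

theorem vol_pos {d : Vtx → Fin 3} (S : Finset Vtx) : (S.card : ℕ∞) ≤ vol d S := by
  unfold vol
  have h1 : ∀ v ∈ S, (1 : ℕ∞) ≤ deg d v := by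
    intro v _
    unfold deg
    refine le_trans ?_ le_self_add
    rw [Set.one_le_encard_iff_nonempty]
    exact ⟨.first v, rfl⟩
  have := Finset.card_nsmul_le_sum S (deg d) 1 h1
  simpa using this

theorem ratio_ge {d : Vtx → Fin 3} (hd : Good d) (S : Finset Vtx) (hS : S.Nonempty)
    (hv : vol d S < ⊤) : (1 / 3 : ENNReal) ≤ ((bdry d S).encard : ENNReal) / (vol d S : ENNReal) := by
  have h1 := vol_le hd S
  have h0 : (1 : ℕ∞) ≤ vol d S := by
    refine le_trans ?_ (vol_pos S)
    exact_mod_cast hS.card_pos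
  obtain ⟨a, ha⟩ := ENat.ne_top_iff_exists.1 hv.ne
  rw [← ha] at h1 h0 ⊢
  have ha0 : a ≠ 0 := by
    rintro rfl
    simp at h0
  rw [ENNReal.le_div_iff_mul_le (Or.inl (by simpa using ha0)) (Or.inl (by simp))]
  have h2 : ((a : ℕ∞) : ENNReal) ≤ 3 * ((bdry d S).encard : ENNReal) := by
    have := ENat.toENNReal_le.2 h1
    simpa using this
  calc 1 / 3 * ((a : ℕ∞) : ENNReal) ≤ 1 / 3 * (3 * ((bdry d S).encard : ENNReal)) := by gcongr
    _ = ((bdry d S).encard : ENNReal) := by
      rw [← mul_assoc, one_div, ENNReal.inv_mul_cancel (by norm_num) (by norm_num), one_mul]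

theorem ratio_le {d : Vtx → Fin 3} (S : Finset Vtx) (hS : S.Nonempty) :
    ((bdry d S).encard : ENNReal) / (vol d S : ENNReal) ≤ 1 := by
  have h0 : (1 : ℕ∞) ≤ vol d S := by
    refine le_trans ?_ (vol_pos S)
    exact_mod_cast hS.card_pos
  have h1 : (bdry d S).encard ≤ vol d S := by
    rw [vol_eq, bdry_eq]
    exact add_le_add le_self_add (le_add_self)
  apply ENNReal.div_le_of_le_mul
  rw [one_mul]
  exact ENat.toENNReal_le.2 h1

theorem ratioInf_ge {d : Vtx → Fin 3} (hd : Good d) (o : Vtx) (n : ℕ) :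
    1 / 3 ≤ ratioInf d o n := by
  unfold ratioInf
  refine le_iInf fun S => le_iInf fun ho => le_iInf fun _ => le_iInf fun _ => le_iInf fun hv => ?_
  exact ratio_ge hd S ⟨o, ho⟩ hv

theorem ratioInf_le {d : Vtx → Fin 3} (hd : Good d) (o : Vtx) (n : ℕ) :
    ratioInf d o n ≤ 1 := by
  classical
  let f : ℕ → Vtx := fun k => ((succ d)^[k] (.first o)).vertex
  have hf0 : f 0 = o := rfl
  have hlab : ∀ k, label d (f k) = label d o - k := fun k => lab_succ_iter hd (.first o) k
  have hinj : Function.Injective f := by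
    intro a b hab
    have h1 := hlab a
    have h2 := hlab b
    rw [hab, h2] at h1
    omega
  have hadj : ∀ k, (shiq d).Adj (f k) (f (k + 1)) := by
    intro k
    have := adj_succ hd ((succ d)^[k] (.first o))
    rwa [← Function.iterate_succ_apply' (succ d)] at this
  set S : Finset Vtx := (Finset.range (n + 1)).image f with hS
  have hmem : ∀ k, k < n + 1 → f k ∈ (S : Set Vtx) := by
    intro k hk
    rw [hS]
    simp only [Finset.coe_image, Set.mem_image, Finset.coe_range, Set.mem_Iio]
    exact ⟨k, hk, rfl⟩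
  have hcard : S.card = n + 1 := by
    rw [hS, Finset.card_image_of_injective _ hinj, Finset.card_range]
  have ho : o ∈ S := hmem 0 (by omega)
  have hconn : ((shiq d).induce (S : Set Vtx)).Connected := by
    rw [SimpleGraph.connected_iff_exists_forall_reachable]
    refine ⟨⟨f 0, hmem 0 (by omega)⟩, ?_⟩
    rintro ⟨w, hw⟩
    have hw' := hw
    rw [hS] at hw'
    simp only [Finset.coe_image, Set.mem_image, Finset.coe_range, Set.mem_Iio] at hw'
    obtain ⟨k, hk, rfl⟩ := hw'
    have key : ∀ k (hk : k < n + 1), ((shiq d).induce (S : Set Vtx)).Reachable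
        ⟨f 0, hmem 0 (by omega)⟩ ⟨f k, hmem k hk⟩ := by
      intro k
      induction k with
      | zero => intro _; exact SimpleGraph.Reachable.refl _
      | succ k ih =>
        intro hk
        refine (ih (by omega)).trans ?_
        apply SimpleGraph.Adj.reachable
        exact hadj k
    exact key k hk
  have hvt : vol d S < ⊤ := by
    unfold vol
    exact WithTop.sum_lt_top.2 (fun v _ => deg_lt_top hd v)
  have hvn : (n : ℕ∞) ≤ vol d S := by
    refine le_trans ?_ (vol_pos S)
    rw [hcard]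
    exact_mod_cast Nat.le_succ n
  unfold ratioInf
  refine (iInf_le_of_le S (iInf_le_of_le ho (iInf_le_of_le hconn (iInf_le_of_le hvn
    (iInf_le_of_le hvt le_rfl))))).trans ?_
  exact ratio_le S ⟨o, ho⟩

theorem ratioInf_mono (d : Vtx → Fin 3) (o : Vtx) : Monotone (ratioInf d o) := by
  intro n m hnm
  unfold ratioInf
  refine iInf_mono fun S => iInf_mono fun _ => iInf_mono fun _ => ?_
  refine le_iInf fun h => iInf_le_of_le (le_trans (by exact_mod_cast hnm) h) le_rfl

theorem ratio_tendsto (d : Vtx → Fin 3) (o : Vtx) :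
    Tendsto (ratioInf d o) atTop (𝓝 (anchored d o)) :=
  tendsto_atTop_iSup (ratioInf_mono d o)

end Q295.Shiq
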