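import Mathlib

/-! Random walks with independent uniform steps `-1, 0, 1` are unbounded above and below. -/

set_option autoImplicit false

namespace Q295.Shiq

open MeasureTheory ProbabilityTheory Filter Topology

variable {Ω : Type*} [mΩ : MeasurableSpace Ω] {μ : Measure Ω}

theorem mart_sum [IsProbabilityMeasure μ] (X : ℕ → Ω → ℝ) (hm : ∀ n, StronglyMeasurable (X n))
    (hi : iIndepFun X μ) (hb : ∀ n ω, |X n ω| ≤ 1) (h0 : ∀ n, ∫ ω, X n ω ∂μ = 0) :
    Martingale (fun n ω => ∑ i ∈ Finset.range (n + 1), X i ω) (Filtration.natural X hm) μ := by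
  have hint : ∀ n, Integrable (X n) μ := fun n =>
    Integrable.of_bound (hm n).aestronglyMeasurable 1
      (Eventually.of_forall fun ω => by rw [Real.norm_eq_abs]; exact hb n ω)
  have hsm : ∀ n, StronglyMeasurable[Filtration.natural X hm n]
      (fun ω => ∑ i ∈ Finset.range (n + 1), X i ω) := by
    intro n
    refine Finset.stronglyMeasurable_fun_sum _ (fun i hi => ?_)
    have := (Filtration.stronglyAdapted_natural hm) i
    exact this.mono ((Filtration.natural X hm).mono (by simpa [Nat.lt_succ_iff] using hi))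
  apply martingale_nat
  · intro n; exact hsm n
  · intro n
    exact integrable_finsetSum _ (fun i _ => hint i)
  · intro n
    have h1 : (fun ω => ∑ i ∈ Finset.range (n + 1 + 1), X i ω) =
        (fun ω => ∑ i ∈ Finset.range (n + 1), X i ω) + X (n + 1) := by
      funext ω
      simp [Finset.sum_range_succ]
    have h2 := hi.condExp_natural_ae_eq_of_lt hm (Nat.lt_succ_self n)
    have h3 : μ[(fun ω => ∑ i ∈ Finset.range (n + 1), X i ω) + X (n + 1) |
        Filtration.natural X hm n] =ᵐ[μ]
        μ[(fun ω => ∑ i ∈ Finset.range (n + 1), X i ω) | Filtration.natural X hm n] +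
        μ[X (n + 1) | Filtration.natural X hm n] :=
      condExp_add (integrable_finsetSum _ (fun i _ => hint i)) (hint _) _
    rw [h1]
    have h4 : μ[(fun ω => ∑ i ∈ Finset.range (n + 1), X i ω) | Filtration.natural X hm n] =
        (fun ω => ∑ i ∈ Finset.range (n + 1), X i ω) :=
      condExp_of_stronglyMeasurable ((Filtration.natural X hm).le n) (hsm n)
        (integrable_finsetSum _ (fun i _ => hint i))
    filter_upwards [h2, h3] with ω h2 h3
    rw [h3, h4, Pi.add_apply, h2, h0]
    simp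

theorem walk_unbdd [IsProbabilityMeasure μ] (X : ℕ → Ω → ℝ) (hm : ∀ n, StronglyMeasurable (X n))
    (hi : iIndepFun X μ) (hb : ∀ n ω, |X n ω| ≤ 1) (h0 : ∀ n, ∫ ω, X n ω ∂μ = 0)
    (hp : ∀ n, μ {ω | X n ω = 1} = 1 / 3) :
    ∀ᵐ ω ∂μ, ∀ c : ℝ, ∃ n, c < ∑ i ∈ Finset.range n, X i ω := by
  have hM := mart_sum X hm hi hb h0
  have h1 := hM.submartingale.bddAbove_iff_exists_tendsto (R := 1)
    (Eventually.of_forall fun ω n => by
      simp only [Finset.sum_range_succ _ (n + 1), add_sub_cancel_left]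
      exact hb _ _)
  have hms : ∀ n, MeasurableSet {ω | X n ω = 1} := fun n =>
    (hm n).measurable (measurableSet_singleton 1)
  have hind : iIndepSet (fun n => {ω | X n ω = 1}) μ := by
    rw [iIndepSet_iff_meas_biInter hms]
    intro s
    have := hi.measure_inter_preimage_eq_mul s (sets := fun _ => {(1 : ℝ)})
      (fun i _ => measurableSet_singleton 1)
    exact this
  have h2 : μ (limsup (fun n => {ω | X n ω = 1}) atTop) = 1 := by
    apply measure_limsup_eq_one hms hind
    simp only [hp]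
    exact ENNReal.tsum_const_eq_top_of_ne_zero (by simp)
  have h3 : ∀ᵐ ω ∂μ, ω ∈ limsup (fun n => {ω | X n ω = 1}) atTop := by
    rw [← prob_compl_eq_zero_iff] at h2
    · exact h2
    · exact MeasurableSet.measurableSet_limsup hms
  filter_upwards [h1, h3] with ω h1 h3
  rw [mem_limsup_iff_frequently_mem] at h3
  have h4 : ¬ BddAbove (Set.range fun n => ∑ i ∈ Finset.range (n + 1), X i ω) := by
    intro hbd
    obtain ⟨c, hc⟩ := h1.1 hbd
    have hc2 : Tendsto (fun n => X (n + 1) ω) atTop (𝓝 0) := by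
      have := (hc.comp (tendsto_add_atTop_nat 1)).sub hc
      simp only [sub_self, Function.comp_def] at this
      refine this.congr fun n => ?_
      rw [Finset.sum_range_succ _ (n + 1)]
      ring
    have hc3 : Tendsto (fun n => X n ω) atTop (𝓝 0) := (tendsto_add_atTop_iff_nat 1).1 hc2
    have hc4 : ∀ᶠ n in atTop, X n ω < 1 := hc3.eventually (gt_mem_nhds (by norm_num))
    obtain ⟨n, hn1, hn2⟩ := (h3.and_eventually hc4).exists
    simp only [Set.mem_ofPred_eq] at hn1
    linarith
  intro c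
  by_contra hcon
  push Not at hcon
  exact h4 ⟨c, by rintro _ ⟨n, rfl⟩; exact hcon _⟩

/-- both sides, for steps `k - 1` with `k` uniform on `Fin 3` -/
theorem walk_two [IsProbabilityMeasure μ] (d : ℕ → Ω → Fin 3) (hm : ∀ n, Measurable (d n))
    (hi : iIndepFun d μ) (hu : ∀ n j, μ {ω | d n ω = j} = 1 / 3) :
    ∀ᵐ ω ∂μ, ∀ c : ℤ, (∃ n, c < ∑ i ∈ Finset.range n, (((d i ω : ℕ) : ℤ) - 1)) ∧
      (∃ n, ∑ i ∈ Finset.range n, (((d i ω : ℕ) : ℤ) - 1) < c) := by
  have hval : ∀ x : Fin 3, (((x : ℕ) : ℝ) - 1 = -1) ∨ (((x : ℕ) : ℝ) - 1 = 0) ∨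
      (((x : ℕ) : ℝ) - 1 = 1) := by
    intro x; fin_cases x <;> norm_num
  have hint : ∀ n (g : Fin 3 → ℝ), ∫ ω, g (d n ω) ∂μ = (g 0 + g 1 + g 2) / 3 := by
    intro n g
    have h1 : (fun ω => g (d n ω)) = fun ω => ∑ j : Fin 3,
        Set.indicator {ω | d n ω = j} (fun _ => g j) ω := by
      funext ω
      simp only [Fin.sum_univ_three, Set.indicator, Set.mem_ofPred_eq]
      generalize d n ω = x
      fin_cases x <;> simp
    rw [h1, integral_finsetSum]
    · have h2 : ∀ j : Fin 3, ∫ ω, Set.indicator {ω | d n ω = j} (fun _ => g j) ω ∂μ = g j / 3 := by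
        intro j
        have hmj : MeasurableSet {ω | d n ω = j} := hm n (measurableSet_singleton j)
        rw [integral_indicator_const _ hmj]
        simp only [Measure.real, smul_eq_mul]
        rw [hu n j]
        simp
        ring
      simp only [h2, Fin.sum_univ_three]
      ring
    · intro j _
      exact (integrable_const _).indicator (hm n (measurableSet_singleton j))
  have hmr : ∀ g : Fin 3 → ℝ, Measurable g := fun g => measurable_of_countable g
  have e1 := walk_unbdd (μ := μ) (fun n ω => ((d n ω : ℕ) : ℝ) - 1)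
    (fun n => ((hmr (fun x => ((x : ℕ) : ℝ) - 1)).comp (hm n)).stronglyMeasurable)
    (hi.comp (fun _ x => ((x : ℕ) : ℝ) - 1) (fun _ => hmr _))
    (fun n ω => by rcases hval (d n ω) with h | h | h <;> rw [h] <;> norm_num)
    (fun n => by rw [hint n (fun x => ((x : ℕ) : ℝ) - 1)]; norm_num)
    (fun n => by
      have : {ω | ((d n ω : ℕ) : ℝ) - 1 = 1} = {ω | d n ω = 2} := by
        ext ω
        simp only [Set.mem_ofPred_eq]
        generalize d n ω = x
        fin_cases x <;> simp <;> norm_num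
      rw [this]; exact hu n 2)
  have e2 := walk_unbdd (μ := μ) (fun n ω => 1 - ((d n ω : ℕ) : ℝ))
    (fun n => ((hmr (fun x => 1 - ((x : ℕ) : ℝ))).comp (hm n)).stronglyMeasurable)
    (hi.comp (fun _ x => 1 - ((x : ℕ) : ℝ)) (fun _ => hmr _))
    (fun n ω => by
      have : 1 - ((d n ω : ℕ) : ℝ) = -(((d n ω : ℕ) : ℝ) - 1) := by ring
      rw [this, abs_neg]
      rcases hval (d n ω) with h | h | h <;> rw [h] <;> norm_num)
    (fun n => by rw [hint n (fun x => 1 - ((x : ℕ) : ℝ))]; norm_num)
    (fun n => by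
      have : {ω | 1 - ((d n ω : ℕ) : ℝ) = 1} = {ω | d n ω = 0} := by
        ext ω
        simp only [Set.mem_ofPred_eq]
        generalize d n ω = x
        fin_cases x <;> simp <;> norm_num
      rw [this]; exact hu n 0)
  filter_upwards [e1, e2] with ω e1 e2 c
  constructor
  · obtain ⟨n, hn⟩ := e1 c
    refine ⟨n, ?_⟩
    have : ((c : ℤ) : ℝ) < ((∑ i ∈ Finset.range n, (((d i ω : ℕ) : ℤ) - 1) : ℤ) : ℝ) := by
      push_cast
      exact hn
    exact_mod_cast this
  · obtain ⟨n, hn⟩ := e2 (-c)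
    refine ⟨n, ?_⟩
    have h1 : ∑ i ∈ Finset.range n, (1 - ((d i ω : ℕ) : ℝ)) =
        - ∑ i ∈ Finset.range n, (((d i ω : ℕ) : ℝ) - 1) := by
      rw [← Finset.sum_neg_distrib]
      exact Finset.sum_congr rfl fun i _ => by ring
    rw [h1] at hn
    have : ((∑ i ∈ Finset.range n, (((d i ω : ℕ) : ℤ) - 1) : ℤ) : ℝ) < ((c : ℤ) : ℝ) := by
      push_cast
      linarith
    exact_mod_cast this

end Q295.Shiq
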